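import Mathlib

/-!
# A foliation of the plane by analytic graphs which oscillates near a fat Cantor set
-/

open Set MeasureTheory
open scoped Topology ContDiff

namespace Pool.Agent.Q140.Arcs

/-- A closed subset of the line unbounded in both directions. -/
structure Good (K : Set ℝ) : Prop where
  closed : IsClosed K
  left : ∀ c, (K ∩ Iic c).Nonempty
  right : ∀ c, (K ∩ Ici c).Nonempty

/-- The largest element of `K` below `c`. -/
noncomputable def lo (K : Set ℝ) (c : ℝ) : ℝ := sSup (K ∩ Iic c)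

/-- The smallest element of `K` above `c`. -/
noncomputable def hi (K : Set ℝ) (c : ℝ) : ℝ := sInf (K ∩ Ici c)

/-- Half the length of the gap containing `c`. -/
noncomputable def hh (K : Set ℝ) (c : ℝ) : ℝ := (hi K c - lo K c) / 2

/-- The amplitude. -/
noncomputable def eta (K : Set ℝ) (c : ℝ) : ℝ := min (c - lo K c) (hi K c - c) / 2

/-- The curves. -/
noncomputable def FF (K : Set ℝ) (c x : ℝ) : ℝ := c + eta K c * Real.sin (2 * x / hh K c)

variable {K : Set ℝ} (hK : Good K)

namespace Good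

include hK

theorem lo_mem (c : ℝ) : lo K c ∈ K ∩ Iic c :=
  (hK.closed.inter isClosed_Iic).csSup_mem (hK.left c) ⟨c, fun _ h => h.2⟩

theorem hi_mem (c : ℝ) : hi K c ∈ K ∩ Ici c :=
  (hK.closed.inter isClosed_Ici).csInf_mem (hK.right c) ⟨c, fun _ h => h.2⟩

omit hK in
theorem le_lo {c k : ℝ} (hk : k ∈ K) (hkc : k ≤ c) : k ≤ lo K c :=
  le_csSup ⟨c, fun _ h => h.2⟩ ⟨hk, hkc⟩

omit hK in
theorem hi_le {c k : ℝ} (hk : k ∈ K) (hkc : c ≤ k) : hi K c ≤ k :=
  csInf_le ⟨c, fun _ h => h.2⟩ ⟨hk, hkc⟩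

theorem lo_le (c : ℝ) : lo K c ≤ c := (hK.lo_mem c).2

theorem le_hi (c : ℝ) : c ≤ hi K c := (hK.hi_mem c).2

theorem lo_eq {c : ℝ} (hc : c ∈ K) : lo K c = c := le_antisymm (hK.lo_le c) (le_lo hc le_rfl)

theorem hi_eq {c : ℝ} (hc : c ∈ K) : hi K c = c := le_antisymm (hi_le hc le_rfl) (hK.le_hi c)

theorem lo_lt {c : ℝ} (hc : c ∉ K) : lo K c < c :=
  lt_of_le_of_ne (hK.lo_le c) (fun h => hc (h ▸ (hK.lo_mem c).1))

theorem lt_hi {c : ℝ} (hc : c ∉ K) : c < hi K c :=
  lt_of_le_of_ne (hK.le_hi c) (fun h => hc (h ▸ (hK.hi_mem c).1))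

theorem not_mem {c d : ℝ} (h1 : lo K c < d) (h2 : d < hi K c) : d ∉ K := by
  intro hd
  rcases le_total d c with h | h
  · exact absurd (le_lo hd h) (not_le.2 h1)
  · exact absurd (hi_le hd h) (not_le.2 h2)

theorem lo_const {c d : ℝ} (h1 : lo K c < d) (h2 : d < hi K c) : lo K d = lo K c := by
  apply le_antisymm
  · by_contra hn
    push Not at hn
    have := hK.lo_mem d
    exact hK.not_mem hn (lt_of_le_of_lt this.2 h2) this.1
  · exact le_lo (hK.lo_mem c).1 h1.le

theorem hi_const {c d : ℝ} (h1 : lo K c < d) (h2 : d < hi K c) : hi K d = hi K c := by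
  apply le_antisymm
  · exact hi_le (hK.hi_mem c).1 h2.le
  · by_contra hn
    push Not at hn
    have := hK.hi_mem d
    exact hK.not_mem (lt_of_lt_of_le h1 this.2) hn this.1

theorem eta_nonneg (c : ℝ) : 0 ≤ eta K c := by
  unfold eta
  have := le_min (sub_nonneg.2 (hK.lo_le c)) (sub_nonneg.2 (hK.le_hi c))
  linarith

theorem eta_zero {c : ℝ} (hc : c ∈ K) : eta K c = 0 := by
  simp [eta, hK.lo_eq hc, hK.hi_eq hc]

omit hK in
theorem abs_pert (c x : ℝ) (h : 0 ≤ eta K c) : |FF K c x - c| ≤ eta K c := by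
  unfold FF
  rw [add_sub_cancel_left, abs_mul, abs_of_nonneg h]
  have := Real.abs_sin_le_one (2 * x / hh K c)
  nlinarith

theorem FF_mem {c : ℝ} (hc : c ∈ K) (x : ℝ) : FF K c x = c := by
  simp [FF, hK.eta_zero hc]

theorem FF_gt {c : ℝ} (hc : c ∉ K) (x : ℝ) : lo K c < FF K c x := by
  have h1 := abs_le.1 (abs_pert c x (hK.eta_nonneg c))
  have h2 : eta K c ≤ (c - lo K c) / 2 := by
    unfold eta
    have := min_le_left (c - lo K c) (hi K c - c)
    linarith
  have h3 := hK.lo_lt hc
  linarith [h1.1]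

theorem FF_lt {c : ℝ} (hc : c ∉ K) (x : ℝ) : FF K c x < hi K c := by
  have h1 := abs_le.1 (abs_pert c x (hK.eta_nonneg c))
  have h2 : eta K c ≤ (hi K c - c) / 2 := by
    unfold eta
    have := min_le_right (c - lo K c) (hi K c - c)
    linarith
  have h3 := hK.lt_hi hc
  linarith [h1.2]

theorem FF_not_mem {c : ℝ} (hc : c ∉ K) (x : ℝ) : FF K c x ∉ K :=
  hK.not_mem (hK.FF_gt hc x) (hK.FF_lt hc x)

theorem lo_FF (c x : ℝ) : lo K (FF K c x) = lo K c := by
  by_cases hc : c ∈ K
  · rw [hK.FF_mem hc]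
  · exact hK.lo_const (hK.FF_gt hc x) (hK.FF_lt hc x)

theorem hi_FF (c x : ℝ) : hi K (FF K c x) = hi K c := by
  by_cases hc : c ∈ K
  · rw [hK.FF_mem hc]
  · exact hK.hi_const (hK.FF_gt hc x) (hK.FF_lt hc x)

/-- The curves through different `c` do not meet. -/
theorem FF_inj {c d x : ℝ} (h : FF K c x = FF K d x) : c = d := by
  have hlo : lo K c = lo K d := by rw [← hK.lo_FF c x, h, hK.lo_FF]
  have hhi : hi K c = hi K d := by rw [← hK.hi_FF c x, h, hK.hi_FF]
  have hhh : hh K c = hh K d := by unfold hh; rw [hlo, hhi]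
  have heta : |eta K c - eta K d| ≤ |c - d| / 2 := by
    unfold eta
    rw [← hlo, ← hhi, ← sub_div, abs_div, abs_of_pos (by norm_num : (0 : ℝ) < 2)]
    apply div_le_div_of_nonneg_right _ (by norm_num)
    have := abs_min_sub_min_le_max (c - lo K c) (hi K c - c) (d - lo K c) (hi K c - d)
    refine this.trans (max_le ?_ ?_)
    · rw [show c - lo K c - (d - lo K c) = c - d by ring]
    · rw [show hi K c - c - (hi K c - d) = -(c - d) by ring, abs_neg]
  have h2 : c - d = -((eta K c - eta K d) * Real.sin (2 * x / hh K c)) := by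
    unfold FF at h
    rw [← hhh] at h
    linarith
  have h3 : |c - d| ≤ |c - d| / 2 := by
    calc |c - d| = |eta K c - eta K d| * |Real.sin (2 * x / hh K c)| := by
          conv_lhs => rw [h2]
          rw [abs_neg, abs_mul]
      _ ≤ |eta K c - eta K d| * 1 :=
          mul_le_mul_of_nonneg_left (Real.abs_sin_le_one _) (abs_nonneg _)
      _ ≤ |c - d| / 2 := by linarith
  have h4 : |c - d| ≤ 0 := by linarith [abs_nonneg (c - d)]
  have h5 : c - d = 0 := abs_nonpos_iff.1 h4
  linarith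

/-- Every point lies on a curve. -/
theorem FF_surj (x y : ℝ) : ∃ c, FF K c x = y := by
  by_cases hy : y ∈ K
  · exact ⟨y, hK.FF_mem hy x⟩
  · set l := lo K y with hl
    set u := hi K y with hu
    have hly : l < y := hK.lo_lt hy
    have hyu : y < u := hK.lt_hi hy
    set G : ℝ → ℝ := fun c => c + min (c - l) (u - c) / 2 * Real.sin (2 * x / ((u - l) / 2)) with hG
    have hGc : Continuous G := by
      simp only [hG]; fun_prop
    have hGl : G l = l := by simp [hG, (hly.trans hyu).le]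
    have hGu : G u = u := by simp [hG, (hly.trans hyu).le]
    obtain ⟨c, hc, hcy⟩ := intermediate_value_Icc (hly.trans hyu).le hGc.continuousOn
      (show y ∈ _ by rw [hGl, hGu]; exact ⟨hly.le, hyu.le⟩)
    have hcl : l < c := lt_of_le_of_ne hc.1 (fun h => by rw [← h, hGl] at hcy; linarith)
    have hcu : c < u := lt_of_le_of_ne hc.2 (fun h => by rw [h, hGu] at hcy; linarith)
    have e1 : lo K c = l := hK.lo_const hcl hcu
    have e2 : hi K c = u := hK.hi_const hcl hcu
    refine ⟨c, ?_⟩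
    unfold FF eta hh
    rw [e1, e2]
    exact hcy

/-- Bound on the slope. -/
theorem eta_le (c : ℝ) : eta K c ≤ hh K c / 2 := by
  unfold eta hh
  have h1 := min_le_left (c - lo K c) (hi K c - c)
  have h2 := min_le_right (c - lo K c) (hi K c - c)
  linarith

theorem slope_le (c : ℝ) (y : ℝ) : |eta K c * (Real.cos y * (2 / hh K c))| ≤ 1 := by
  by_cases hc : c ∈ K
  · rw [hK.eta_zero hc]; simp
  · have hpos : 0 < hh K c := by
      unfold hh
      have h1 := hK.lo_lt hc
      have h2 := hK.lt_hi hc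
      linarith
    have h3 := hK.eta_le c
    have h4 := hK.eta_nonneg c
    rw [abs_mul, abs_mul, abs_of_nonneg h4, abs_of_pos (by positivity : 0 < 2 / hh K c)]
    have h5 := Real.abs_cos_le_one y
    calc eta K c * (|Real.cos y| * (2 / hh K c)) ≤ hh K c / 2 * (1 * (2 / hh K c)) := by
          apply mul_le_mul h3 _ (by positivity) (by positivity)
          exact mul_le_mul_of_nonneg_right h5 (by positivity)
      _ = 1 := by field_simp

end Good

omit hK in
theorem hasDerivAt_FF (K : Set ℝ) (c x : ℝ) :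
    HasDerivAt (FF K c) (eta K c * (Real.cos (2 * x / hh K c) * (2 / hh K c))) x := by
  have h1 : HasDerivAt (fun x : ℝ => 2 * x / hh K c) (2 / hh K c) x := by
    have := ((hasDerivAt_id x).const_mul 2).div_const (hh K c)
    simpa using this
  exact (h1.sin.const_mul (eta K c)).const_add c

end Pool.Agent.Q140.Arcs
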