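import Pool.Agent.Q140.Arcs.Curves

/-!
# Coverings of the plane by non-overlapping arcs
-/

open Set MeasureTheory Topology
open scoped ContDiff

namespace Pool.Agent.Q140.Arcs

/-- `γ` restricted to the nondegenerate interval `I` is a homeomorphism onto the arc `A` of the
Euclidean plane `ℂ`. -/
structure Param (A : Set ℂ) (I : Set ℝ) (γ : ℝ → ℂ) : Prop where
  interval : I.OrdConnected
  nondegenerate : I.Nontrivial
  embedding : IsEmbedding (fun t : I => γ t)
  image : γ '' I = A

/-- `p` is an endpoint of the arc `A`: a limit point of one of its two ends, whether or not it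
belongs to `A`. -/
def IsEndpoint (A : Set ℂ) (p : ℂ) : Prop :=
  ∃ I γ, Param A I γ ∧ ((∀ t ∈ I, p ∈ closure (γ '' (I ∩ Iic t))) ∨
    ∀ t ∈ I, p ∈ closure (γ '' (I ∩ Ici t)))

/-- `A` is a differentiable rectifiable arc of length at least `δ`: it has a parametrisation with
nonvanishing derivative (one-sided at included endpoints), and its length, the total variation of
a parametrisation, is finite and at least `δ`. -/
def IsDiffRectArc (A : Set ℂ) (δ : ℝ) : Prop :=
  ∃ I γ, Param A I γ ∧ (∀ t ∈ I, ∃ v : ℂ, v ≠ 0 ∧ HasDerivWithinAt γ v I t) ∧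
    eVariationOn γ I ≠ ⊤ ∧ ENNReal.ofReal δ ≤ eVariationOn γ I

/-- `v` is a nonzero tangent vector at `p` to the arc `A`. -/
def IsTangent (A : Set ℂ) (p v : ℂ) : Prop :=
  v ≠ 0 ∧ ∃ I γ, Param A I γ ∧ ∃ t ∈ I, γ t = p ∧ HasDerivWithinAt γ v I t

/-- The angle between the lines spanned by `v` and `w`. -/
noncomputable def lineAngle (v w : ℂ) : ℝ := Real.arccos (|inner ℝ v w| / (‖v‖ * ‖w‖))

/-- `F` is a covering of the plane by non-overlapping differentiable rectifiable arcs of length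
at least `δ`. -/
structure IsCovering (F : Set (Set ℂ)) (δ : ℝ) : Prop where
  arcs : ∀ A ∈ F, IsDiffRectArc A δ
  disjoint : ∀ A ∈ F, ∀ B ∈ F, A ≠ B → Disjoint A B
  cover : ∀ z : ℂ, ∃ A ∈ F, z ∈ A

/-- No endpoint of an arc of `F` lies in `N`. -/
def NoEndpoint (F : Set (Set ℂ)) (N : Set ℂ) : Prop := ∀ A ∈ F, ∀ p ∈ N, ¬ IsEndpoint A p

/-- Any two tangent lines at points of `N` differ in direction by less than `ε`. -/
def DirectionsClose (F : Set (Set ℂ)) (N : Set ℂ) (ε : ℝ) : Prop :=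
  ∀ A ∈ F, ∀ B ∈ F, ∀ p ∈ N, ∀ q ∈ N, ∀ v w, IsTangent A p v → IsTangent B q w →
    lineAngle v w < ε

/-- `F` is smooth at `z`. -/
def SmoothAt (F : Set (Set ℂ)) (z : ℂ) : Prop :=
  ∀ ε : ℝ, 0 < ε → ∃ N, IsOpen N ∧ z ∈ N ∧ NoEndpoint F N ∧ DirectionsClose F N ε

/-- The parametrised curve. -/
noncomputable def cur (K : Set ℝ) (c x : ℝ) : ℂ := ⟨x, FF K c x⟩

/-- The arc. -/
def arc (K : Set ℝ) (n : ℤ) (c : ℝ) : Set ℂ := cur K c '' Ico (n : ℝ) (n + 1)

/-- The family of arcs. -/
def fam (K : Set ℝ) : Set (Set ℂ) := {A | ∃ (n : ℤ) (c : ℝ), A = arc K n c}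

variable {K : Set ℝ}

theorem cur_eq (K : Set ℝ) (c x : ℝ) : cur K c x = (x : ℂ) + (FF K c x : ℂ) * Complex.I := by
  apply Complex.ext <;> simp [cur]

theorem contDiff_cur (K : Set ℝ) (c : ℝ) : ContDiff ℝ ω (cur K c) := by
  have h1 : ContDiff ℝ ω (FF K c) := by
    unfold FF
    apply contDiff_const.add
    apply contDiff_const.mul
    exact Real.contDiff_sin.comp ((contDiff_const.mul contDiff_id).div_const _)
  have h2 : cur K c = fun x : ℝ => (x : ℂ) + (FF K c x : ℂ) * Complex.I :=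
    funext fun x => cur_eq K c x
  rw [h2]
  exact Complex.ofRealCLM.contDiff.add ((Complex.ofRealCLM.contDiff.comp h1).mul contDiff_const)

theorem hasDerivAt_cur (K : Set ℝ) (c x : ℝ) :
    HasDerivAt (cur K c) (⟨1, eta K c * (Real.cos (2 * x / hh K c) * (2 / hh K c))⟩ : ℂ) x := by
  have h1 := (hasDerivAt_FF K c x).ofReal_comp
  have h2 : HasDerivAt (fun x : ℝ => (x : ℂ)) 1 x := by
    simpa using (hasDerivAt_id x).ofReal_comp
  have h3 := h2.add (h1.mul_const Complex.I)
  have h4 : cur K c = fun x : ℝ => (x : ℂ) + (FF K c x : ℂ) * Complex.I :=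
    funext fun x => cur_eq K c x
  rw [h4]
  refine HasDerivAt.congr_deriv h3 ?_
  generalize eta K c * (Real.cos (2 * x / hh K c) * (2 / hh K c)) = s
  apply Complex.ext <;> simp

theorem param_arc (K : Set ℝ) (n : ℤ) (c : ℝ) : Param (arc K n c) (Ico (n : ℝ) (n + 1)) (cur K c) where
  interval := ordConnected_Ico
  nondegenerate := by
    refine ⟨n, ⟨le_rfl, by linarith⟩, n + 1 / 2, ⟨by linarith, by linarith⟩, ?_⟩
    intro h
    have h' : (n : ℝ) = n + 1 / 2 := h
    linarith
  embedding := by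
    have hc : Continuous (cur K c) := (contDiff_cur K c).continuous
    have h1 : Continuous (fun t : Ico (n : ℝ) (n + 1) => cur K c t) := hc.comp continuous_subtype_val
    have h2 : IsEmbedding (Complex.re ∘ fun t : Ico (n : ℝ) (n + 1) => cur K c t) := by
      have : (Complex.re ∘ fun t : Ico (n : ℝ) (n + 1) => cur K c t) = Subtype.val := by
        funext t; rfl
      rw [this]
      exact IsEmbedding.subtypeVal
    exact IsEmbedding.of_comp h1 Complex.continuous_re h2
  image := rfl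

end Pool.Agent.Q140.Arcs
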