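import Pool.Agent.Q140.Arcs.Defs

/-!
# The covering is not smooth on a set of positive measure
-/

open Set MeasureTheory Topology
open scoped ContDiff ENNReal

namespace Pool.Agent.Q140.Arcs

variable {K : Set ℝ}

theorem lipschitz_cur (hK : Good K) (c : ℝ) : LipschitzWith 2 (cur K c) := by
  apply lipschitzWith_of_nnnorm_deriv_le
  · intro x
    exact (hasDerivAt_cur K c x).differentiableAt
  · intro x
    rw [(hasDerivAt_cur K c x).deriv, ← NNReal.coe_le_coe]
    have h1 := hK.slope_le c (2 * x / hh K c)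
    set s := eta K c * (Real.cos (2 * x / hh K c) * (2 / hh K c))
    calc ‖(⟨1, s⟩ : ℂ)‖ ≤ |(⟨1, s⟩ : ℂ).re| + |(⟨1, s⟩ : ℂ).im| := Complex.norm_le_abs_re_add_abs_im _
      _ ≤ 1 + 1 := by
          simp only [abs_one]
          linarith
      _ = ((2 : NNReal) : ℝ) := by norm_num

theorem diffRect (hK : Good K) (n : ℤ) (c : ℝ) : IsDiffRectArc (arc K n c) 1 := by
  refine ⟨_, _, param_arc K n c, ?_, ?_, ?_⟩
  · intro t _
    refine ⟨_, ?_, (hasDerivAt_cur K c t).hasDerivWithinAt⟩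
    intro h
    have := congrArg Complex.re h
    simp at this
  · have h1 : LocallyBoundedVariationOn (cur K c) univ :=
      (lipschitz_cur hK c).locallyBoundedVariationOn univ
    have h2 := h1 n (n + 1) (mem_univ _) (mem_univ _)
    intro h3
    apply h2
    rw [eq_top_iff, ← h3]
    apply eVariationOn.mono
    intro x hx
    exact ⟨mem_univ _, hx.1, hx.2.le⟩
  · -- the length is at least the variation of the abscissa
    have key : ∀ ε : ℝ, 0 < ε → ε < 1 → ENNReal.ofReal (1 - ε) ≤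
        eVariationOn (cur K c) (Ico (n : ℝ) (n + 1)) := by
      intro ε h0 h1
      have h2 := eVariationOn.edist_le (cur K c) (s := Ico (n : ℝ) (n + 1)) (x := n + (1 - ε))
        (y := n) ⟨by linarith, by linarith⟩ ⟨le_rfl, by linarith⟩
      refine le_trans ?_ h2
      rw [edist_dist]
      apply ENNReal.ofReal_le_ofReal
      rw [Complex.dist_eq]
      have h3 := Complex.abs_re_le_norm (cur K c (n + (1 - ε)) - cur K c n)
      have h4 : (cur K c (n + (1 - ε)) - cur K c n).re = 1 - ε := by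
        simp [cur]
      rw [h4] at h3
      exact (le_abs_self _).trans h3
    apply le_of_forall_lt
    intro b hb
    have hbt : b ≠ ⊤ := ne_top_of_lt hb
    have hb1 : b.toReal < 1 := by
      rw [← ENNReal.ofReal_toReal hbt] at hb
      exact (ENNReal.ofReal_lt_ofReal_iff (by norm_num)).1 hb
    have hb0 : 0 ≤ b.toReal := ENNReal.toReal_nonneg
    have h5 := key ((1 - b.toReal) / 2) (by linarith) (by linarith)
    refine lt_of_lt_of_le ?_ h5
    have h6 : b.toReal < 1 - (1 - b.toReal) / 2 := by linarith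
    calc b = ENNReal.ofReal b.toReal := (ENNReal.ofReal_toReal hbt).symm
      _ < ENNReal.ofReal (1 - (1 - b.toReal) / 2) :=
        (ENNReal.ofReal_lt_ofReal_iff (lt_of_le_of_lt hb0 h6)).2 h6

theorem covering (hK : Good K) : IsCovering (fam K) 1 where
  arcs := by
    rintro A ⟨n, c, rfl⟩
    exact diffRect hK n c
  disjoint := by
    rintro A ⟨n, c, rfl⟩ B ⟨m, d, rfl⟩ hne
    rw [Set.disjoint_left]
    rintro z ⟨x, hx, rfl⟩ ⟨y, hy, hxy⟩
    apply hne
    have hre : y = x := congrArg Complex.re hxy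
    subst hre
    have him : FF K d y = FF K c y := congrArg Complex.im hxy
    have hcd := hK.FF_inj him
    have hn : n = ⌊y⌋ := (Int.floor_eq_iff.2 ⟨hx.1, hx.2⟩).symm
    have hm : m = ⌊y⌋ := (Int.floor_eq_iff.2 ⟨hy.1, hy.2⟩).symm
    rw [hn, hm, hcd]
  cover := by
    intro z
    obtain ⟨c, hc⟩ := hK.FF_surj z.re z.im
    refine ⟨arc K ⌊z.re⌋ c, ⟨_, _, rfl⟩, z.re, ⟨Int.floor_le _, Int.lt_floor_add_one _⟩, ?_⟩
    apply Complex.ext
    · rfl
    · exact hc

/-- Endpoints of the arcs have integral abscissa. -/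
theorem endpoint_re {A : Set ℂ} (hA : A ∈ fam K) {p : ℂ} (hp : IsEndpoint A p) :
    ∃ n : ℤ, p.re = n := by
  obtain ⟨n, c, rfl⟩ := hA
  obtain ⟨I, γ, hγ, hend⟩ := hp
  -- the abscissa along `γ`
  set g : ℝ → ℝ := fun t => (γ t).re with hg
  have hmem : ∀ t ∈ I, ∃ x ∈ Ico (n : ℝ) (n + 1), cur K c x = γ t := by
    intro t ht
    have : γ t ∈ arc K n c := by rw [← hγ.image]; exact ⟨t, ht, rfl⟩
    exact this
  have hgI : ∀ t ∈ I, g t ∈ Ico (n : ℝ) (n + 1) := by
    intro t ht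
    obtain ⟨x, hx, hxe⟩ := hmem t ht
    have : (γ t).re = x := by rw [← hxe]; rfl
    rw [hg]; simp only [this]; exact hx
  have hsurj : ∀ x ∈ Ico (n : ℝ) (n + 1), ∃ t ∈ I, g t = x := by
    intro x hx
    have : cur K c x ∈ γ '' I := by rw [hγ.image]; exact ⟨x, hx, rfl⟩
    obtain ⟨t, ht, hte⟩ := this
    exact ⟨t, ht, by simp only [hg, hte]; rfl⟩
  have hinj : ∀ s ∈ I, ∀ t ∈ I, g s = g t → s = t := by
    intro s hs t ht hst
    obtain ⟨x, hx, hxe⟩ := hmem s hs
    obtain ⟨y, hy, hye⟩ := hmem t ht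
    have h1 : g s = x := by simp only [hg, ← hxe]; rfl
    have h2 : g t = y := by simp only [hg, ← hye]; rfl
    have h3 : γ s = γ t := by rw [← hxe, ← hye, ← h1, ← h2, hst]
    have := hγ.embedding.injective (a₁ := ⟨s, hs⟩) (a₂ := ⟨t, ht⟩) h3
    exact congrArg Subtype.val this
  have hgc : Continuous (fun t : I => g t) := Complex.continuous_re.comp hγ.embedding.continuous
  have := hγ.interval
  have : Inhabited I := ⟨⟨_, hγ.nondegenerate.nonempty.some_mem⟩⟩
  have hgi : Function.Injective (fun t : I => g t) := fun s t h =>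
    Subtype.ext (hinj s s.2 t t.2 h)
  have hmono : StrictMono (fun t : I => g t) ∨ StrictAnti (fun t : I => g t) :=
    Continuous.strictMono_of_inj hgc hgi
  -- closures
  have hclo : ∀ (S : Set ℝ) (a b : ℝ), (∀ t ∈ S, a ≤ g t ∧ g t ≤ b) → p ∈ closure (γ '' S) →
      a ≤ p.re ∧ p.re ≤ b := by
    intro S a b hS hpS
    have hcl : IsClosed {z : ℂ | a ≤ z.re ∧ z.re ≤ b} :=
      (isClosed_le continuous_const Complex.continuous_re).inter
        (isClosed_le Complex.continuous_re continuous_const)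
    have : γ '' S ⊆ {z : ℂ | a ≤ z.re ∧ z.re ≤ b} := by
      rintro z ⟨t, ht, rfl⟩
      exact hS t ht
    exact closure_minimal this hcl hpS
  -- the two possible conclusions
  have low : (∀ t ∈ I, n ≤ p.re ∧ p.re ≤ g t) → ∃ n : ℤ, p.re = n := by
    intro h
    refine ⟨n, le_antisymm ?_ ?_⟩
    · obtain ⟨t, ht, hte⟩ := hsurj n ⟨le_rfl, by linarith⟩
      rw [← hte]; exact (h t ht).2
    · obtain ⟨t, ht, -⟩ := hsurj n ⟨le_rfl, by linarith⟩
      exact (h t ht).1
  have high : (∀ t ∈ I, g t ≤ p.re ∧ p.re ≤ n + 1) → ∃ n : ℤ, p.re = n := by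
    intro h
    refine ⟨n + 1, ?_⟩
    push_cast
    apply le_antisymm
    · obtain ⟨t, ht, -⟩ := hsurj n ⟨le_rfl, by linarith⟩
      exact (h t ht).2
    · by_contra hn
      push Not at hn
      obtain ⟨t, ht, hte⟩ := hsurj (max n ((p.re + (n + 1)) / 2))
        ⟨le_max_left _ _, max_lt (by linarith) (by linarith)⟩
      have h1 := (h t ht).1
      rw [hte] at h1
      have h2 := le_max_right (n : ℝ) ((p.re + (n + 1)) / 2)
      linarith
  rcases hmono with hm | hm <;> rcases hend with he | he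
  · apply low
    intro t ht
    apply hclo (I ∩ Iic t) n (g t) _ (he t ht)
    intro s hs
    exact ⟨(hgI s hs.1).1, hm.monotone (a := ⟨s, hs.1⟩) (b := ⟨t, ht⟩) hs.2⟩
  · apply high
    intro t ht
    apply hclo (I ∩ Ici t) (g t) (n + 1) _ (he t ht)
    intro s hs
    exact ⟨hm.monotone (a := ⟨t, ht⟩) (b := ⟨s, hs.1⟩) hs.2, (hgI s hs.1).2.le⟩
  · apply high
    intro t ht
    apply hclo (I ∩ Iic t) (g t) (n + 1) _ (he t ht)
    intro s hs
    exact ⟨hm.antitone (a := ⟨s, hs.1⟩) (b := ⟨t, ht⟩) hs.2, (hgI s hs.1).2.le⟩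
  · apply low
    intro t ht
    apply hclo (I ∩ Ici t) n (g t) _ (he t ht)
    intro s hs
    exact ⟨(hgI s hs.1).1, hm.antitone (a := ⟨t, ht⟩) (b := ⟨s, hs.1⟩) hs.2⟩

/-- A neighbourhood without endpoints. -/
theorem noEndpoint (K : Set ℝ) {z : ℂ} (hz : ∀ n : ℤ, z.re ≠ n) :
    ∃ N, IsOpen N ∧ z ∈ N ∧ NoEndpoint (fam K) N := by
  refine ⟨{w | (⌊z.re⌋ : ℝ) < w.re ∧ w.re < ⌊z.re⌋ + 1}, ?_, ?_, ?_⟩
  · exact (isOpen_lt continuous_const Complex.continuous_re).inter
      (isOpen_lt Complex.continuous_re continuous_const)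
  · exact ⟨lt_of_le_of_ne (Int.floor_le _) (hz _).symm, Int.lt_floor_add_one _⟩
  · rintro A hA p ⟨h1, h2⟩ hp
    obtain ⟨n, hn⟩ := endpoint_re hA hp
    rw [hn] at h1 h2
    have h3 : ⌊z.re⌋ < n := by exact_mod_cast h1
    have h4 : n < ⌊z.re⌋ + 1 := by exact_mod_cast h2
    omega

theorem isTangent (K : Set ℝ) (c x : ℝ) :
    ∃ A ∈ fam K, IsTangent A (cur K c x)
      ⟨1, eta K c * (Real.cos (2 * x / hh K c) * (2 / hh K c))⟩ := by
  refine ⟨arc K ⌊x⌋ c, ⟨_, _, rfl⟩, ?_, _, _, param_arc K ⌊x⌋ c, x,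
    ⟨Int.floor_le _, Int.lt_floor_add_one _⟩, rfl, (hasDerivAt_cur K c x).hasDerivWithinAt⟩
  intro h
  have := congrArg Complex.re h
  simp at this

/-- The directions oscillate near points of `K` which are accumulated from above. -/
theorem not_close (hK : Good K) (hd : ∀ a b : ℝ, a < b → a ∈ K → b ∈ K → a ∈ Ico (0 : ℝ) 1 →
    ∃ c ∈ Ioo a b, c ∉ K)
    {z : ℂ} (hz : z.im ∈ K) (hz01 : z.im ∈ Ico (0 : ℝ) 1)
    (hacc : ∀ δ : ℝ, 0 < δ → ∃ k ∈ K, z.im < k ∧ k < z.im + δ) {N : Set ℂ} (hN : IsOpen N)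
    (hzN : z ∈ N) : ¬ DirectionsClose (fam K) N (1 / 2) := by
  intro hclose
  obtain ⟨δ, hδ, hball⟩ := Metric.isOpen_iff.1 hN z hzN
  obtain ⟨k, hk, hk1, hk2⟩ := hacc (δ / 20) (by positivity)
  obtain ⟨c, hc, hcK⟩ := hd z.im k hk1 hz hk hz01
  set l := lo K c with hl
  set u := hi K c with hu
  have hlc : l < c := hK.lo_lt hcK
  have hcu : c < u := hK.lt_hi hcK
  have hzl : z.im ≤ l := Good.le_lo hz hc.1.le
  have huk : u ≤ k := Good.hi_le hk hc.2.le
  set m := (l + u) / 2 with hm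
  have hlm : l < m := by rw [hm]; linarith
  have hmu : m < u := by rw [hm]; linarith
  have em1 : lo K m = l := hK.lo_const hlm hmu
  have em2 : hi K m = u := hK.hi_const hlm hmu
  have hmK : m ∉ K := hK.not_mem hlm hmu
  set h := hh K m with hh'
  have hhe : h = (u - l) / 2 := by rw [hh', hh, em1, em2]
  have hh0 : 0 < h := by rw [hhe]; linarith
  have hhs : h < δ / 40 := by rw [hhe]; linarith
  have heta : eta K m = h / 2 := by
    unfold eta
    rw [em1, em2, hhe, show m - l = (u - l) / 2 by rw [hm]; ring,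
      show u - m = (u - l) / 2 by rw [hm]; ring, min_self]
  have hpi := Real.pi_pos
  have hpi4 := Real.pi_lt_four
  -- the two points
  set j : ℤ := ⌈z.re / (Real.pi * h)⌉ with hj
  have hph : 0 < Real.pi * h := by positivity
  set x := (j : ℝ) * (Real.pi * h) with hx
  have hx1 : z.re ≤ x := by
    have := Int.le_ceil (z.re / (Real.pi * h))
    rw [← hj, div_le_iff₀ hph] at this
    exact this
  have hx2 : x < z.re + Real.pi * h := by
    have := Int.ceil_lt_add_one (z.re / (Real.pi * h))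
    rw [← hj] at this
    have h2 : (j : ℝ) - 1 < z.re / (Real.pi * h) := by linarith
    rw [lt_div_iff₀ hph] at h2
    rw [hx]; linarith
  set x' := x + Real.pi * h / 4 with hx'
  have ex : 2 * x / h = j * (2 * Real.pi) := by rw [hx]; field_simp
  have ex' : 2 * x' / h = Real.pi / 2 + j * (2 * Real.pi) := by
    rw [hx', mul_add, add_div, ex]; field_simp; ring
  have hs1 : eta K m * (Real.cos (2 * x / hh K m) * (2 / hh K m)) = 1 := by
    rw [← hh', heta, ex, Real.cos_int_mul_two_pi]; field_simp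
  have hs2 : eta K m * (Real.cos (2 * x' / hh K m) * (2 / hh K m)) = 0 := by
    rw [← hh', heta, ex', Real.cos_add_int_mul_two_pi, Real.cos_pi_div_two]; ring
  have hmem : ∀ y : ℝ, z.re ≤ y → y < z.re + δ / 2 → cur K m y ∈ N := by
    intro y h1 h2
    apply hball
    rw [Metric.mem_ball, Complex.dist_eq]
    have h3 : |(cur K m y - z).re| < δ / 2 := by
      simp only [cur, Complex.sub_re]
      rw [abs_of_nonneg (by linarith)]; linarith
    have h4 : |(cur K m y - z).im| < δ / 2 := by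
      simp only [cur, Complex.sub_im]
      have k1 := hK.FF_gt hmK y
      have k2 := hK.FF_lt hmK y
      rw [em1] at k1
      rw [em2] at k2
      rw [abs_of_nonneg (by linarith)]
      linarith
    calc ‖cur K m y - z‖ ≤ |(cur K m y - z).re| + |(cur K m y - z).im| :=
          Complex.norm_le_abs_re_add_abs_im _
      _ < δ := by linarith
  have hph2 : Real.pi * h < δ / 10 := by nlinarith
  obtain ⟨A, hA, htA⟩ := isTangent K m x
  obtain ⟨B, hB, htB⟩ := isTangent K m x'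
  rw [hs1] at htA
  rw [hs2] at htB
  have hlt := hclose A hA B hB _ (hmem x hx1 (by linarith)) _
    (hmem x' (by rw [hx']; linarith) (by rw [hx']; linarith)) _ _ htA htB
  -- the angle is `π / 4`
  have hang : lineAngle ⟨1, 1⟩ ⟨1, 0⟩ = Real.pi / 4 := by
    have n1 : ‖(⟨1, 1⟩ : ℂ)‖ = Real.sqrt 2 := by
      rw [Complex.norm_eq_sqrt_sq_add_sq]; norm_num
    have n2 : ‖(⟨1, 0⟩ : ℂ)‖ = 1 := by
      rw [Complex.norm_eq_sqrt_sq_add_sq]; norm_num
    have n3 : inner ℝ (⟨1, 1⟩ : ℂ) ⟨1, 0⟩ = 1 := by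
      simp [Complex.inner]
    unfold lineAngle
    rw [n1, n2, n3, abs_one, mul_one]
    have : 1 / Real.sqrt 2 = Real.cos (Real.pi / 4) := by
      rw [Real.cos_pi_div_four]
      have := Real.sq_sqrt (by norm_num : (0 : ℝ) ≤ 2)
      have h0 : Real.sqrt 2 ≠ 0 := by positivity
      field_simp
      linarith
    rw [this, Real.arccos_cos (by positivity) (by linarith)]
  rw [hang] at hlt
  have := Real.pi_gt_three
  linarith

/-- A closed set of the line, unbounded in both directions, whose part in `[0, 1]` has positive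
measure and contains no interval. -/
theorem exists_fat : ∃ K : Set ℝ, Good K ∧ 0 < volume (K ∩ Icc 0 1) ∧
    ∀ a b : ℝ, a < b → a ∈ K → b ∈ K → a ∈ Ico (0 : ℝ) 1 → ∃ c ∈ Ioo a b, c ∉ K := by
  -- an open set of small measure containing the rationals
  have hQ : volume (range ((↑) : ℚ → ℝ)) = 0 := (countable_range _).measure_zero _
  obtain ⟨U, hUs, hUo, hU⟩ := Set.exists_isOpen_lt_of_lt (μ := volume) (range ((↑) : ℚ → ℝ)) 1
    (by rw [hQ]; exact zero_lt_one)
  refine ⟨(Icc 0 1 \ U) ∪ Iic 0 ∪ Ici 1, ⟨?_, ?_, ?_⟩, ?_, ?_⟩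
  · exact ((isClosed_Icc.sdiff hUo).union isClosed_Iic).union isClosed_Ici
  · intro c
    exact ⟨min c 0, Or.inl (Or.inr (mem_Iic.2 (min_le_right _ _))), mem_Iic.2 (min_le_left _ _)⟩
  · intro c
    exact ⟨max c 1, Or.inr (mem_Ici.2 (le_max_right _ _)), mem_Ici.2 (le_max_left _ _)⟩
  · have h1 : volume (Icc (0 : ℝ) 1) = 1 := by simp
    have h2 : volume (Icc (0 : ℝ) 1) ≤ volume (Icc (0 : ℝ) 1 \ U) + volume U := by
      calc volume (Icc (0 : ℝ) 1) ≤ volume ((Icc (0 : ℝ) 1 \ U) ∪ U) :=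
            measure_mono (fun x hx => by
              by_cases h : x ∈ U
              · exact Or.inr h
              · exact Or.inl ⟨hx, h⟩)
        _ ≤ _ := measure_union_le _ _
    have h3 : 0 < volume (Icc (0 : ℝ) 1 \ U) := by
      by_contra hn
      have h4 : volume (Icc (0 : ℝ) 1 \ U) = 0 := by
        simpa using hn
      rw [h4, zero_add, h1] at h2
      exact absurd hU (not_lt.2 h2)
    refine lt_of_lt_of_le h3 (measure_mono fun x hx => ⟨Or.inl (Or.inl hx), hx.1⟩)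
  · intro a b hab ha hb ha01
    obtain ⟨q, hq1, hq2⟩ := exists_rat_btwn (show a < min b 1 from lt_min hab ha01.2)
    refine ⟨q, ⟨hq1, hq2.trans_le (min_le_left _ _)⟩, ?_⟩
    rintro ((h | h) | h)
    · exact h.2 (hUs ⟨q, rfl⟩)
    · exact absurd h (not_le.2 (lt_of_le_of_lt ha01.1 hq1))
    · exact absurd h (not_le.2 (hq2.trans_le (min_le_right _ _)))

/-- The main theorem in terms of `K`. -/
theorem main : ∃ F : Set (Set ℂ), IsCovering F 1 ∧
    (∀ A ∈ F, ∃ I γ, Param A I γ ∧ ContDiff ℝ ω γ ∧ ∀ t, deriv γ t ≠ 0) ∧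
    0 < volume {z : ℂ | (∃ N, IsOpen N ∧ z ∈ N ∧ NoEndpoint F N) ∧
      ∀ N, IsOpen N → z ∈ N → ¬ DirectionsClose F N (1 / 2)} := by
  obtain ⟨K, hK, hvol, hd⟩ := exists_fat
  refine ⟨fam K, covering hK, ?_, ?_⟩
  · rintro A ⟨n, c, rfl⟩
    refine ⟨_, _, param_arc K n c, contDiff_cur K c, fun t h => ?_⟩
    rw [(hasDerivAt_cur K c t).deriv] at h
    have := congrArg Complex.re h
    simp at this
  · -- points accumulated from the right
    set R : Set ℝ := {y | y ∈ K ∧ y ∈ Ico (0 : ℝ) 1 ∧ ¬ 𝓝[K ∩ Ioi y] y = ⊥} with hR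
    have hRvol : 0 < volume R := by
      have hcount : ({y | y ∈ K ∧ 𝓝[K ∩ Ioi y] y = ⊥} : Set ℝ).Countable :=
        countable_setOfPred_isolated_right_within
      have hsub : K ∩ Icc 0 1 ⊆ R ∪ ({y | y ∈ K ∧ 𝓝[K ∩ Ioi y] y = ⊥} ∪ {1}) := by
        rintro y ⟨hy, hy01⟩
        by_cases h1 : y = 1
        · exact Or.inr (Or.inr h1)
        · by_cases h2 : 𝓝[K ∩ Ioi y] y = ⊥
          · exact Or.inr (Or.inl ⟨hy, h2⟩)
          · exact Or.inl ⟨hy, ⟨hy01.1, lt_of_le_of_ne hy01.2 h1⟩, h2⟩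
      have h0 : volume ({y | y ∈ K ∧ 𝓝[K ∩ Ioi y] y = ⊥} ∪ {1} : Set ℝ) = 0 :=
        (hcount.union (countable_singleton 1)).measure_zero _
      calc 0 < volume (K ∩ Icc 0 1) := hvol
        _ ≤ volume (R ∪ ({y | y ∈ K ∧ 𝓝[K ∩ Ioi y] y = ⊥} ∪ {1})) := measure_mono hsub
        _ ≤ volume R + volume ({y | y ∈ K ∧ 𝓝[K ∩ Ioi y] y = ⊥} ∪ {1} : Set ℝ) :=
          measure_union_le _ _
        _ = volume R := by rw [h0, add_zero]
    have hbox : 0 < volume {z : ℂ | z.re ∈ Ioo (0 : ℝ) 1 ∧ z.im ∈ R} := by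
      have h1 : {z : ℂ | z.re ∈ Ioo (0 : ℝ) 1 ∧ z.im ∈ R} =
          Complex.measurableEquivRealProd ⁻¹' (Ioo (0 : ℝ) 1 ×ˢ R) := by
        ext z
        simp [Complex.measurableEquivRealProd_apply]
      rw [h1, Complex.volume_preserving_equiv_real_prod.measure_preimage_equiv,
        Measure.volume_eq_prod, Measure.prod_prod]
      simpa using hRvol
    refine lt_of_lt_of_le hbox (measure_mono ?_)
    rintro z ⟨hre, hz, hz01, hzR⟩
    refine ⟨noEndpoint K ?_, ?_⟩
    · intro n hn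
      rw [hn] at hre
      have h1 : 0 < n := by exact_mod_cast hre.1
      have h2 : n < 1 := by exact_mod_cast hre.2
      omega
    · intro N hN hzN
      refine not_close hK hd hz hz01 ?_ hN hzN
      intro δ hδ
      have hne : (𝓝[K ∩ Ioi z.im] z.im).NeBot := ⟨hzR⟩
      have hmem : Iio (z.im + δ) ∈ 𝓝[K ∩ Ioi z.im] z.im :=
        mem_nhdsWithin_of_mem_nhds (Iio_mem_nhds (by linarith))
      obtain ⟨k, hk⟩ := hne.nonempty_of_mem (Filter.inter_mem hmem self_mem_nhdsWithin)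
      exact ⟨k, hk.2.1, hk.2.2, hk.1⟩

theorem not_smooth {F : Set (Set ℂ)} {z : ℂ}
    (h : ∀ N, IsOpen N → z ∈ N → ¬ DirectionsClose F N (1 / 2)) : ¬ SmoothAt F z := by
  intro hs
  obtain ⟨N, hN, hz, -, hd⟩ := hs (1 / 2) (by norm_num)
  exact h N hN hz hd

end Pool.Agent.Q140.Arcs
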